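import Mathlib

/-!
MP_dbc085_nt.  The Sills–Zeilberger polynomials `P_{01r}`: the polynomial `P_{018}` is not
convex.  Indeed `P_{018}(1) = 0`, `P_{018}(2) = 10321920 > 0` and
`P_{018}(3) = -308510720/9 < 0`.

The power series with coefficients in `ℚ[X]` that defines `P_{01r}` is evaluated at
`X = 1, 2, 3`; its coefficients up to degree 8 are then computed as lists of rationals.
-/

namespace Pool.Agent.Results.MP_dbc085_nt.NotConvex

open Finset
open scoped Polynomial

/-- `s_j` is, for every `j ≥ 1`, the polynomial with `s_j(N) = 1^j + ... + N^j`, `N ≥ 0`. -/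
def PowerSums (s : ℕ → ℚ[X]) : Prop :=
  ∀ j : ℕ, 1 ≤ j → ∀ N : ℕ, (s j).eval (N : ℚ) = ∑ i ∈ Icc 1 N, (i : ℚ) ^ j

/-- The exponent `∑_{j=1}^r (-1)^(j+1) B_j / (j·j!) (s_j(x) - x) z^j`, a power series in `z`
with coefficients in `ℚ[x]`. -/
noncomputable def expo (s : ℕ → ℚ[X]) (r : ℕ) : PowerSeries ℚ[X] :=
  ∑ j ∈ Icc 1 r, PowerSeries.monomial j
    (Polynomial.C ((-1 : ℚ) ^ (j + 1) * bernoulli j / (j * (Nat.factorial j : ℚ))) * (s j - Polynomial.X))

/-- `P_{01r}(x)`: `(-4)^r r!` times the coefficient of `z^r` in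
`e^z β(z)^(r+1) exp(expo)`; since the exponent has no constant term, the exponential series
may be cut after its `r`-th term without changing the coefficient of `z^r`. -/
noncomputable def P01 (s : ℕ → ℚ[X]) (r : ℕ) : ℚ[X] :=
  Polynomial.C ((-4 : ℚ) ^ r * (Nat.factorial r : ℚ)) *
    PowerSeries.coeff r (PowerSeries.exp ℚ[X] * bernoulliPowerSeries ℚ[X] ^ (r + 1) *
      ∑ m ∈ range (r + 1), PowerSeries.C (Polynomial.C (1 / (Nat.factorial m : ℚ))) * expo s r ^ m)

/-- product of truncated series (degree at most 8) given by coefficient lists -/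
def mulL (a b : List ℚ) : List ℚ :=
  (List.range 9).map fun n => ((List.range (n + 1)).map fun i =>
    a.getD i 0 * b.getD (n - i) 0).sum

def addL (a b : List ℚ) : List ℚ :=
  (List.range 9).map fun n => a.getD n 0 + b.getD n 0

def smulL (c : ℚ) (a : List ℚ) : List ℚ :=
  (List.range 9).map fun n => c * a.getD n 0

def powL (a : List ℚ) : ℕ → List ℚ
  | 0 => [1]
  | m + 1 => mulL (powL a m) a

/-- the list `l` holds the coefficients of `F`, evaluated by `w`, up to degree 8 -/
def Agree (w : ℚ[X] →+* ℚ) (F : PowerSeries ℚ[X]) (l : List ℚ) : Prop :=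
  ∀ n < 9, w (PowerSeries.coeff n F) = l.getD n 0

lemma getD_map_range (f : ℕ → ℚ) {n : ℕ} (hn : n < 9) :
    ((List.range 9).map f).getD n 0 = f n := by
  rw [List.getD_eq_getElem?_getD, List.getElem?_map, List.getElem?_range hn]
  simp

lemma sum_range_list (f : ℕ → ℚ) (n : ℕ) :
    ∑ i ∈ range n, f i = ((List.range n).map f).sum := by
  induction n with
  | zero => simp
  | succ n ih => rw [Finset.sum_range_succ, ih, List.range_succ]; simp

lemma agree_mul {w : ℚ[X] →+* ℚ} {F G : PowerSeries ℚ[X]} {a b : List ℚ}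
    (hF : Agree w F a) (hG : Agree w G b) : Agree w (F * G) (mulL a b) := by
  intro n hn
  rw [mulL, getD_map_range _ hn, PowerSeries.coeff_mul,
    Finset.Nat.sum_antidiagonal_eq_sum_range_succ
      (fun i j => PowerSeries.coeff i F * PowerSeries.coeff j G), map_sum, ← sum_range_list]
  refine Finset.sum_congr rfl fun i hi => ?_
  rw [Finset.mem_range] at hi
  rw [map_mul, hF i (by omega), hG (n - i) (by omega)]

lemma agree_add {w : ℚ[X] →+* ℚ} {F G : PowerSeries ℚ[X]} {a b : List ℚ}
    (hF : Agree w F a) (hG : Agree w G b) : Agree w (F + G) (addL a b) := by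
  intro n hn
  rw [addL, getD_map_range _ hn, map_add, map_add, hF n hn, hG n hn]

lemma agree_C_mul {w : ℚ[X] →+* ℚ} {F : PowerSeries ℚ[X]} {a : List ℚ} (p : ℚ[X])
    (hF : Agree w F a) : Agree w (PowerSeries.C p * F) (smulL (w p) a) := by
  intro n hn
  rw [smulL, getD_map_range _ hn, PowerSeries.coeff_C_mul, map_mul, hF n hn]

lemma agree_one (w : ℚ[X] →+* ℚ) : Agree w 1 [1] := by
  intro n hn
  rw [PowerSeries.coeff_one]
  interval_cases n <;> simp

lemma agree_pow {w : ℚ[X] →+* ℚ} {F : PowerSeries ℚ[X]} {a : List ℚ}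
    (hF : Agree w F a) (m : ℕ) : Agree w (F ^ m) (powL a m) := by
  induction m with
  | zero => simpa [powL] using agree_one w
  | succ m ih => rw [pow_succ]; exact agree_mul ih hF

def expL : List ℚ := [1, 1, 1 / 2, 1 / 6, 1 / 24, 1 / 120, 1 / 720, 1 / 5040, 1 / 40320]

def bernL : List ℚ := [1, -1 / 2, 1 / 12, 0, -1 / 720, 0, 1 / 30240, 0, -1 / 1209600]

lemma bern_vals : bernoulli 0 = 1 ∧ bernoulli 1 = -1 / 2 ∧ bernoulli 2 = 1 / 6 ∧
    bernoulli 3 = 0 ∧ bernoulli 4 = -1 / 30 ∧ bernoulli 5 = 0 ∧ bernoulli 6 = 1 / 42 ∧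
    bernoulli 7 = 0 ∧ bernoulli 8 = -1 / 30 := by
  have h0 := bernoulli_zero
  have h1 := bernoulli_one
  have h2 : bernoulli 2 = 1 / 6 := by rw [bernoulli_two]; norm_num
  have h3 : bernoulli 3 = 0 := bernoulli_eq_zero_of_odd (by decide) (by norm_num)
  have h5 : bernoulli 5 = 0 := bernoulli_eq_zero_of_odd (by decide) (by norm_num)
  have h7 : bernoulli 7 = 0 := bernoulli_eq_zero_of_odd (by decide) (by norm_num)
  have h4 : bernoulli 4 = -1 / 30 := by
    have h := sum_bernoulli 5
    simp only [Finset.sum_range_succ, Finset.sum_range_zero, h0, h1, h2, h3] at h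
    norm_num [Nat.choose] at h
    linarith
  have h6 : bernoulli 6 = 1 / 42 := by
    have h := sum_bernoulli 7
    simp only [Finset.sum_range_succ, Finset.sum_range_zero, h0, h1, h2, h3, h4, h5] at h
    norm_num [Nat.choose] at h
    linarith
  have h8 : bernoulli 8 = -1 / 30 := by
    have h := sum_bernoulli 9
    simp only [Finset.sum_range_succ, Finset.sum_range_zero, h0, h1, h2, h3, h4, h5, h6, h7] at h
    norm_num [Nat.choose] at h
    linarith
  exact ⟨h0, h1, h2, h3, h4, h5, h6, h7, h8⟩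

lemma map_algebraMap (w : ℚ[X] →+* ℚ) (q : ℚ) : w (algebraMap ℚ ℚ[X] q) = q := by
  have h : (w.comp (algebraMap ℚ ℚ[X])) = RingHom.id ℚ := Subsingleton.elim _ _
  exact congrArg (fun f : ℚ →+* ℚ => f q) h

lemma map_C (w : ℚ[X] →+* ℚ) (q : ℚ) : w (Polynomial.C q) = q := map_algebraMap w q

lemma agree_exp (w : ℚ[X] →+* ℚ) : Agree w (PowerSeries.exp ℚ[X]) expL := by
  intro n hn
  rw [PowerSeries.coeff_exp, map_algebraMap]
  interval_cases n <;> norm_num [expL, Nat.factorial]

lemma agree_bern (w : ℚ[X] →+* ℚ) : Agree w (bernoulliPowerSeries ℚ[X]) bernL := by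
  obtain ⟨h0, h1, h2, h3, h4, h5, h6, h7, h8⟩ := bern_vals
  intro n hn
  rw [bernoulliPowerSeries, PowerSeries.coeff_mk, map_algebraMap]
  interval_cases n <;> norm_num [bernL, Nat.factorial, h0, h1, h2, h3, h4, h5, h6, h7, h8]

/-- coefficients of the exponent at `x = N` -/
def expoL (N : ℕ) : List ℚ :=
  (List.range 9).map fun n => if n = 0 then 0 else
    [0, -1 / 2, -1 / 24, 0, 1 / 2880, 0, -1 / 181440, 0, 1 / 9676800].getD n 0 *
      (((List.range N).map fun i : ℕ => ((i + 1 : ℕ) : ℚ) ^ n).sum - N)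

lemma coeff_expo (s : ℕ → ℚ[X]) (n : ℕ) (hn : n < 9) :
    PowerSeries.coeff n (expo s 8) = if n = 0 then 0 else
      Polynomial.C ((-1 : ℚ) ^ (n + 1) * bernoulli n / (n * (Nat.factorial n : ℚ))) *
        (s n - Polynomial.X) := by
  rw [expo, map_sum]
  simp only [PowerSeries.coeff_monomial]
  by_cases h : n = 0
  · subst h
    rw [if_pos rfl]
    refine Finset.sum_eq_zero fun j hj => ?_
    rw [Finset.mem_Icc] at hj
    rw [if_neg (by omega)]
  · rw [if_neg h, Finset.sum_eq_single n]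
    · rw [if_pos rfl]
    · intro j _ hj
      rw [if_neg (fun h' => hj h'.symm)]
    · intro h'
      exact absurd (Finset.mem_Icc.2 ⟨by omega, by omega⟩) h'

lemma agree_expo (s : ℕ → ℚ[X]) (N : ℕ)
    (hs : ∀ j : ℕ, 1 ≤ j → (s j).eval (N : ℚ) = ∑ i ∈ Icc 1 N, (i : ℚ) ^ j) :
    Agree (Polynomial.evalRingHom (N : ℚ)) (expo s 8) (expoL N) := by
  obtain ⟨h0, h1, h2, h3, h4, h5, h6, h7, h8⟩ := bern_vals
  intro n hn
  rw [coeff_expo s n hn, expoL, getD_map_range _ hn]
  by_cases h : n = 0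
  · subst h; simp
  · rw [if_neg h, if_neg h, map_mul, map_C, map_sub]
    have e1 : Polynomial.evalRingHom (N : ℚ) (s n)
        = ((List.range N).map fun i : ℕ => ((i + 1 : ℕ) : ℚ) ^ n).sum := by
      rw [Polynomial.coe_evalRingHom, hs n (by omega), ← sum_range_list,
        Finset.range_eq_Ico, Finset.sum_Ico_add' (fun i : ℕ => (i : ℚ) ^ n) 0 N 1]
      rfl
    have e2 : Polynomial.evalRingHom (N : ℚ) Polynomial.X = N := by simp
    rw [e1, e2]
    congr 1
    interval_cases n <;> norm_num [Nat.factorial, h1, h2, h3, h4, h5, h6, h7, h8]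

/-- partial sums of the exponential series -/
def sumL (l : List ℚ) : ℕ → List ℚ
  | 0 => []
  | m + 1 => addL (sumL l m) (smulL (1 / (Nat.factorial m : ℚ)) (powL l m))

lemma agree_sum {w : ℚ[X] →+* ℚ} {F : PowerSeries ℚ[X]} {l : List ℚ} (hF : Agree w F l)
    (k : ℕ) : Agree w (∑ m ∈ range k,
      PowerSeries.C (Polynomial.C (1 / (Nat.factorial m : ℚ))) * F ^ m) (sumL l k) := by
  induction k with
  | zero => intro n _; simp [sumL]
  | succ k ih =>
    rw [Finset.sum_range_succ, sumL]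
    refine agree_add ih ?_
    have h := agree_C_mul (Polynomial.C (1 / (Nat.factorial k : ℚ))) (agree_pow hF k)
    rwa [map_C] at h

def value (N : ℕ) : ℚ :=
  65536 * 40320 * (mulL (mulL expL (powL bernL 9)) (sumL (expoL N) 9)).getD 8 0

lemma eval_P01 (s : ℕ → ℚ[X]) (N : ℕ)
    (hs : ∀ j : ℕ, 1 ≤ j → (s j).eval (N : ℚ) = ∑ i ∈ Icc 1 N, (i : ℚ) ^ j) :
    (P01 s 8).eval (N : ℚ) = value N := by
  have h := agree_mul (agree_mul (agree_exp (Polynomial.evalRingHom (N : ℚ)))
    (agree_pow (agree_bern _) 9)) (agree_sum (agree_expo s N hs) 9) 8 (by norm_num)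
  rw [← Polynomial.coe_evalRingHom, P01, map_mul, map_C, value]
  have e : ((-4 : ℚ) ^ 8 * (Nat.factorial 8 : ℚ)) = 65536 * 40320 := by
    norm_num [Nat.factorial]
  rw [e]
  exact congrArg (fun t : ℚ => 65536 * 40320 * t) h

lemma value_one : value 1 = 0 := by decide +kernel
lemma value_two : value 2 = 10321920 := by decide +kernel
lemma value_three : value 3 = -308510720 / 9 := by decide +kernel

lemma exists_powerSums : ∃ s : ℕ → ℚ[X], PowerSums s := by
  refine ⟨fun j => ∑ i ∈ range (j + 1),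
    Polynomial.C (bernoulli' i * ((j + 1).choose i : ℚ) / (j + 1)) *
      Polynomial.X ^ (j + 1 - i), fun j _ N => ?_⟩
  have h := sum_Ico_pow N j
  have e : (Icc 1 N : Finset ℕ) = Ico 1 (N + 1) := by
    ext x; simp only [Finset.mem_Icc, Finset.mem_Ico]; omega
  rw [e, h, Polynomial.eval_finsetSum]
  refine Finset.sum_congr rfl fun i _ => ?_
  rw [Polynomial.eval_mul, Polynomial.eval_C, Polynomial.eval_pow, Polynomial.eval_X]
  ring

/-- The power sum polynomials `s_j` exist, and if `P_{018}` is defined with them, then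
`P_{018}(1) = 0`, `P_{018}(2) = 10321920` and `P_{018}(3) = -308510720/9`; so `P_{018}` has a
real zero in `(2,3)` and is not convex: `P_{018}''(x) < 0` for some real `x`. -/
theorem result : (∃ s : ℕ → ℚ[X], PowerSums s) ∧ ∀ s : ℕ → ℚ[X], PowerSums s →
    (P01 s 8).eval 1 = 0 ∧ (P01 s 8).eval 2 = 10321920 ∧
      (P01 s 8).eval 3 = -308510720 / 9 ∧
      (∃ x : ℝ, 2 < x ∧ x < 3 ∧ ((P01 s 8).map (algebraMap ℚ ℝ)).eval x = 0) ∧
      ∃ x : ℝ, ((P01 s 8).map (algebraMap ℚ ℝ)).derivative.derivative.eval x < 0 := by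
  refine ⟨exists_powerSums, fun s hs => ?_⟩
  have h1 : (P01 s 8).eval 1 = 0 := by
    have := eval_P01 s 1 fun j hj => hs j hj 1
    rw [value_one] at this; exact_mod_cast this
  have h2 : (P01 s 8).eval 2 = 10321920 := by
    have := eval_P01 s 2 fun j hj => hs j hj 2
    rw [value_two] at this; exact_mod_cast this
  have h3 : (P01 s 8).eval 3 = -308510720 / 9 := by
    have := eval_P01 s 3 fun j hj => hs j hj 3
    rw [value_three] at this; exact_mod_cast this
  set Q : Polynomial ℝ := (P01 s 8).map (algebraMap ℚ ℝ) with hQ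
  have hev : ∀ q : ℚ, Q.eval (q : ℝ) = (((P01 s 8).eval q : ℚ) : ℝ) := by
    intro q
    rw [hQ, show (q : ℝ) = algebraMap ℚ ℝ q from rfl, Polynomial.eval_map_algebraMap,
      Polynomial.aeval_algebraMap_apply]
    rfl
  have g1 : Q.eval 1 = 0 := by have := hev 1; rw [h1] at this; simpa using this
  have g2 : Q.eval 2 = 10321920 := by
    have := hev 2; rw [h2] at this; push_cast at this; simpa using this
  have g3 : Q.eval 3 = -308510720 / 9 := by
    have := hev 3; rw [h3] at this; push_cast at this; simpa using this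
  refine ⟨h1, h2, h3, ?_, ?_⟩
  · have hc : ContinuousOn (fun x : ℝ => Q.eval x) (Set.Icc 2 3) := Q.continuous.continuousOn
    have hm : (0 : ℝ) ∈ Set.Ioo (Q.eval 3) (Q.eval 2) := by
      rw [g2, g3]; constructor <;> norm_num
    obtain ⟨x, hx, hx0⟩ := intermediate_value_Ioo' (by norm_num : (2 : ℝ) ≤ 3) hc hm
    exact ⟨x, hx.1, hx.2, hx0⟩
  · by_contra hcon
    push Not at hcon
    have hconv : ConvexOn ℝ Set.univ (fun x : ℝ => Q.eval x) := by
      refine convexOn_of_deriv2_nonneg' convex_univ Q.differentiable.differentiableOn ?_ ?_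
      · have : deriv (fun x : ℝ => Q.eval x) = fun x => Q.derivative.eval x := by
          funext x; exact Polynomial.deriv Q
        rw [this]
        exact Q.derivative.differentiable.differentiableOn
      · intro x _
        have e1 : deriv (fun x : ℝ => Q.eval x) = fun x => Q.derivative.eval x := by
          funext x; exact Polynomial.deriv Q
        have e2 : deriv^[2] (fun x : ℝ => Q.eval x) x = Q.derivative.derivative.eval x := by
          rw [Function.iterate_succ, Function.comp_apply, e1, Function.iterate_one]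
          exact Polynomial.deriv Q.derivative
        rw [e2]
        exact hcon x
    have hmid := hconv.2 (Set.mem_univ (1 : ℝ)) (Set.mem_univ (3 : ℝ))
      (by norm_num : (0 : ℝ) ≤ 1 / 2) (by norm_num : (0 : ℝ) ≤ 1 / 2) (by norm_num)
    have e3 : (1 / 2 : ℝ) • (1 : ℝ) + (1 / 2 : ℝ) • (3 : ℝ) = 2 := by norm_num
    rw [e3] at hmid
    simp only [g1, g2, g3, smul_eq_mul] at hmid
    norm_num at hmid

end Pool.Agent.Results.MP_dbc085_nt.NotConvex
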